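import Pool.Agent.J4H23.VD.Stm
import Pool.Agent.J4H98.SB.Pol

/-!
# Project VD of helper23, job APL: the brute force over the heaviest vertices runs in polynomial time
-/

set_option autoImplicit false

namespace Pool.Agent.J4H98.VD

open Finset Pool.Agent.NPC Pool.Agent.H49R2.PC Pool.Agent.J4H63.DB Pool.Agent.J4H23.SB Pool.Agent.J4H23.VD

variable {α : Type} [TEnc α]

theorem p_enum {E : α → List (ℕ × ℕ)} {t : α → ℕ} {L R : α → List ℕ} (hE : NPC.Poly E)
    (ht : NPC.Poly t) (hL : NPC.Poly L) (hR : NPC.Poly R) (W : Polynomial ℕ)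
    (hW : ∀ a k, (enum (E a) (t a) ((L a).take k) (R a)).length ≤ W.eval (sz a)) :
    NPC.Poly (fun a => enum (E a) (t a) (L a) (R a)) := by
  obtain ⟨r1, hr1⟩ := hL.sz_le
  obtain ⟨r2, hr2⟩ := hR.sz_le
  have hstep : NPC.Poly (fun p : α × List (List ℕ × List ℕ) × ℕ =>
      p.2.1.flatMap (J4H23.SB.bs (E p.1) (t p.1) p.2.2)) := by
    refine Poly.flatMap
      (F := fun (p : α × List (List ℕ × List ℕ) × ℕ) s => J4H23.SB.bs (E p.1) (t p.1) p.2.2 s)
      (Poly.fst (Poly.snd Poly.id)) ?_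
    exact J4H98.SB.p_bs (hE.comp (Poly.fst (Poly.fst Poly.id))) (ht.comp (Poly.fst (Poly.fst Poly.id)))
      (Poly.snd (Poly.snd (Poly.fst Poly.id))) (Poly.snd Poly.id)
  refine Poly.foldl (l := L) (s := fun a => [(([] : List ℕ), R a)])
    (F := fun a st v => st.flatMap (J4H23.SB.bs (E a) (t a) v)) hL
    (Poly.cons (Poly.pair (NPC.Poly.const []) hR) (NPC.Poly.const [])) hstep
    (W * (r1 + r2 + Polynomial.C 2) + Polynomial.C 1) ?_
  intro a k _
  have h1 := J4H98.SB.sz_enum_le (E a) (t a) ((L a).take k) (R a)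
  have h2 := NPC.Poly.sz_take_le (L a) k
  have h3 := hW a k
  have h4 := hr1 a
  have h5 := hr2 a
  simp only [Polynomial.eval_add, Polynomial.eval_mul, Polynomial.eval_C]
  exact h1.trans (Nat.add_le_add_right (Nat.mul_le_mul h3 (by omega)) 1)

theorem p_vs {G : α → WG} (hG : NPC.Poly G) : NPC.Poly (fun a => vs (G a)) := by
  unfold vs
  exact NPC.Poly.map (F := fun _ (p : ℕ × ℕ) => p.1) (Poly.fst hG) (Poly.fst (Poly.snd Poly.id))

theorem p_wgt {G : α → WG} {C : α → List ℕ} (hG : NPC.Poly G) (hC : NPC.Poly C) :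
    NPC.Poly (fun a => wgt (G a) (C a)) := by
  unfold wgt
  refine Poly.sum (NPC.Poly.map (F := fun _ (p : ℕ × ℕ) => p.2)
    (Poly.filter (p := fun a (p : ℕ × ℕ) => decide (p.1 ∈ C a)) (Poly.fst hG) ?_)
    (Poly.snd (Poly.snd Poly.id)))
  exact Poly.decide_mem (Poly.fst (Poly.snd Poly.id)) (hC.comp (Poly.fst Poly.id))

theorem p_before {p v : α → ℕ × ℕ} (hp : NPC.Poly p) (hv : NPC.Poly v) :
    NPC.Poly (fun a => before (p a) (v a)) := by
  unfold before
  exact Poly.or (Poly.decide_lt (Poly.snd hv) (Poly.snd hp))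
    (Poly.and (Poly.decide_eq (Poly.snd hp) (Poly.snd hv)) (Poly.decide_lt (Poly.fst hp) (Poly.fst hv)))

theorem p_top {G : α → WG} {K : α → ℕ} (hG : NPC.Poly G) (hK : NPC.Poly K) :
    NPC.Poly (fun a => top (G a) (K a)) := by
  unfold top
  refine p_take (NPC.Poly.map (F := fun _ (p : ℕ × ℕ) => p.1)
    (Poly.filter (p := fun a (v : ℕ × ℕ) => decide (((G a).1.filter (fun p => before p v)).length < K a))
      (Poly.fst hG) ?_) (Poly.fst (Poly.snd Poly.id))) hK
  refine Poly.decide_lt (Poly.length ?_) (hK.comp (Poly.fst Poly.id))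
  exact Poly.filter (p := fun (q : α × (ℕ × ℕ)) (p : ℕ × ℕ) => before p q.2)
    (Poly.fst (hG.comp (Poly.fst Poly.id))) (p_before (Poly.snd Poly.id) (Poly.snd (Poly.fst Poly.id)))

theorem length_top (G : WG) (K : ℕ) : (top G K).length ≤ K := by
  unfold top
  exact List.length_take_le _ _

theorem p_cands {G : α → WG} {K : α → ℕ} (hG : NPC.Poly G) (hK : NPC.Poly K) (W : Polynomial ℕ)
    (hW : ∀ a, 2 ^ K a ≤ W.eval (sz a)) : NPC.Poly (fun a => cands (G a) (K a)) := by
  have ht := p_top hG hK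
  have hen : NPC.Poly (fun a => enum [] (top (G a) (K a)).length (top (G a) (K a)) []) := by
    refine p_enum (E := fun _ => []) (R := fun _ => []) (NPC.Poly.const []) (Poly.length ht) ht
      (NPC.Poly.const []) W fun a k => ?_
    refine (J4H98.SB.t_LEN _ _ _ _).1.trans (le_trans ?_ (hW a))
    refine Nat.pow_le_pow_right (by norm_num) ?_
    rw [List.length_take]
    have := length_top (G a) (K a)
    omega
  unfold cands
  refine Poly.filter (p := fun a (C : List ℕ) => (G a).2.all (fun e => decide (e.1 ∈ C) || decide (e.2 ∈ C)))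
    (NPC.Poly.map (F := fun a (s : List ℕ × List ℕ) => (vs (G a)).filter (fun v => !decide (v ∈ s.1)))
      hen ?_) ?_
  · exact Poly.filter (p := fun (q : α × (List ℕ × List ℕ)) (v : ℕ) => !decide (v ∈ q.2.1))
      (p_vs (hG.comp (Poly.fst Poly.id)))
      (Poly.not (Poly.decide_mem (Poly.snd Poly.id) (Poly.fst (Poly.snd (Poly.fst Poly.id)))))
  · refine Poly.all (p := fun (q : α × List ℕ) (e : ℕ × ℕ) => decide (e.1 ∈ q.2) || decide (e.2 ∈ q.2))
      (Poly.snd (hG.comp (Poly.fst Poly.id))) ?_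
    exact Poly.or (Poly.decide_mem (Poly.fst (Poly.snd Poly.id)) (Poly.snd (Poly.fst Poly.id)))
      (Poly.decide_mem (Poly.snd (Poly.snd Poly.id)) (Poly.snd (Poly.fst Poly.id)))

theorem p_algV {G : α → WG} {K : α → ℕ} (hG : NPC.Poly G) (hK : NPC.Poly K) (W : Polynomial ℕ)
    (hW : ∀ a, 2 ^ K a ≤ W.eval (sz a)) : NPC.Poly (fun a => algV (G a) (K a)) := by
  have hc := p_cands hG hK W hW
  have hf : NPC.Poly (fun a => (cands (G a) (K a)).filter
      (fun C => (cands (G a) (K a)).all (fun D => decide (wgt (G a) C ≤ wgt (G a) D)))) := by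
    refine Poly.filter (p := fun a (C : List ℕ) =>
      (cands (G a) (K a)).all (fun D => decide (wgt (G a) C ≤ wgt (G a) D))) hc ?_
    refine Poly.all (p := fun (q : α × List ℕ) (D : List ℕ) => decide (wgt (G q.1) q.2 ≤ wgt (G q.1) D))
      (hc.comp (Poly.fst Poly.id)) ?_
    have hG' : NPC.Poly (fun p : (α × List ℕ) × List ℕ => G p.1.1) := hG.comp (Poly.fst (Poly.fst Poly.id))
    exact Poly.decide_le (p_wgt hG' (Poly.snd (Poly.fst Poly.id))) (p_wgt hG' (Poly.snd Poly.id))
  refine (Poly.getD hf (NPC.Poly.const 0) (NPC.Poly.const [])).congr fun a => ?_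
  unfold algV
  rw [List.headD_eq_head?_getD, List.getD_eq_getElem?_getD, List.head?_eq_getElem?]

theorem t_APL : S_APL := by
  intro D
  have hG : NPC.Poly (fun G : WG => G) := Poly.id
  have hn : NPC.Poly (fun G : WG => G.1.length) := Poly.length (Poly.fst hG)
  have hK : NPC.Poly (fun G : WG => D * G.1.length.size) := NPC.Poly.mul (NPC.Poly.const D) (J4H98.SB.p_size hn)
  obtain ⟨r, hr⟩ := H628R3.RO.uPoly_le (UPoly.length (Poly.fst hG))
  refine p_algV hG hK ((Polynomial.C 2 * r + Polynomial.C 1) ^ D) fun G => ?_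
  simp only [Polynomial.eval_add, Polynomial.eval_mul, Polynomial.eval_C, Polynomial.eval_pow]
  rw [mul_comm D, pow_mul]
  refine Nat.pow_le_pow_left ((J4H98.SB.two_pow_size_le _).trans ?_) _
  have := hr G
  omega

end Pool.Agent.J4H98.VD
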